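import Pool.Agent.U191.FK.MurreConv

/-!
# Murre's conjectures (A), (B), (D) for motives of Hodge level at most two

`𝒱` is a class of smooth projective geometrically irreducible varieties over the field `k` closed
under products (for example all of them), `C` the Chow groups with rational coefficients, `H` a Weil
cohomology theory with complex coefficients and `D` the Hodge decompositions (for instance `k ⊆ ℂ`
and singular cohomology).

Let `X = C_1 × ⋯ × C_n × B`, where `B` has dimension zero and the `C_i` are curves with actions of
finite groups `G_i`, all irreducible characters of which have values in a number field `K` which is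
totally real (for example symmetric and dihedral groups, and all other groups whose elements are
conjugate to their inverses), or imaginary quadratic, or a CM field of degree four.

* Let `a` be an element of the rational group algebra of `G_1 × ⋯ × G_n` which acts as zero on
  `H^{p,q}(X)` for `|p - q| > 2`.
* Let `Y` be a quotient of `X`, or a direct summand of `X` cut out by an element of the group algebra,
  of Hodge level at most two.

**Theorem.** Let `M = (Z, p, m)` be any Chow motive which is a direct summand of a finite sum of twists
of motives of these two kinds. Then `M` has a Chow-Kunneth decomposition `M = ⊕ M_i` (A) with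
`CH_l(M_i) = 0` for `i < 2 l` (B) and `CH_l(M_(2 l))_hom = 0` for all `l` (D).

The main point is that the motives of both kinds, which are given as direct summands of motives of
varieties of arbitrary dimension, are dominated by products of at most two curves.
-/

set_option autoImplicit false

open CategoryTheory AlgebraicGeometry

universe u v

namespace Pool.Agent.Results.MP_38de51_ag.CurveQuotients

open Pool.Agent.H914 Pool.Agent.H914.VarClass Pool.Agent.H914.VarClass.Obj Pool.Agent.W492.BB
  Pool.Agent.TH133 Pool.Agent.U191.EY Pool.Agent.U191.FL

/-- **Murre's conjectures (A), (B), (D) for motives of Hodge level at most two** which are built from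
products of curves with actions of finite groups. -/
theorem result {k : Type u} [Field k] {𝒱 : VarClass k} {C : TheoryData.{u, v, 0} 𝒱 ℚ}
    [IsChowProj C] {H : WeilTheoryData.{u, v, 0} C ℂ} [IsWeilProj H]
    {D : ∀ V : 𝒱.Obj, HodgeRing (H.A V)} (hD : IsHodgeTheory H D) (hN : KimuraTheorem H)
    (hS : SurfaceFacts H) (T : 𝒱.Obj) (hT : T.dim = 1) (Z : 𝒱.Obj) (p : C.A (Z.prod Z))
    (hpp : compo C p p = p) (hp : IsBuiltOfLevel H D 2 p) (m : ℤ) :
    ∃ π : ℤ → C.A (Z.prod Z), IsCKDecomposition H p m π ∧ MurreB C m π ∧ MurreD H m π :=
  murre_of_level hD hN hS hT hpp hp m

end Pool.Agent.Results.MP_38de51_ag.CurveQuotients
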