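import Pool.Agent.U3.MQ.Main

/-!
# Chow-Kunneth decompositions of motives with finite groups, tensor products, summands

Murre's conjecture (A). The base case: Chow motives `M = (X, p)` with an action of a finite group such
that all `H^i(M)` but one are finite-dimensional (the projections onto them are induced by
correspondences which factor through Kimura-finite varieties). The class is closed under tensor
products, duals, tensor powers with permutations of the factors, twists, sums and summands which are
cut out by the group.
-/

set_option autoImplicit false

universe u v w

namespace Pool.Agent.Results.MP_38de51_ag.FiniteGroupsAndTensorProducts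

open Pool.Agent.H914 Pool.Agent.H914.VarClass Pool.Agent.W492.BB Pool.Agent.TH133
  Pool.Agent.U3.UC Pool.Agent.U3.MQ

/-- **Chow-Kunneth decompositions of motives which are built from motives with finite groups all but
one of whose cohomology groups are finite-dimensional.** Let `M = (X, p)` with the correspondences
`ρ g` be in the class `BuiltMot`. Then all twists `(X, p, n)` have Chow-Kunneth decompositions which
commute with all `ρ g`. -/
theorem result {k : Type u} [Field k] {𝒱 : VarClass k} {C : TheoryData.{u, v, 0} 𝒱 ℚ}
    [IsChowProj C] {K : Type w} [Field K] {H : WeilTheoryData.{u, v, w} C K} [IsWeilProj H]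
    {G : Type} [Group G] {X : 𝒱.Obj} {p : C.A (X.prod X)} {ρ : G → C.A (X.prod X)}
    (hX : BuiltMot H G X p ρ) (n : ℤ) :
    ∃ π : ℤ → C.A (X.prod X), IsMotiveCK H p n π ∧
      ∀ g i, C.comp (ρ g) (π i) = C.comp (π i) (ρ g) :=
  exists_motiveCK hX n

end Pool.Agent.Results.MP_38de51_ag.FiniteGroupsAndTensorProducts
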