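import Pool.Agent.U435.SP.Mur2

/-!
# Voevodsky's conjecture and Murre's conjectures over all fields and over the prime field

`M` are the geometric motives over a field `k` (the prime field) with a realisation, `N` those
over an extension `K` of `k` (for instance `ℂ` over `ℚ`, or any field of characteristic `p` over
`𝔽_p`), `G` the degrees and weights of the realisations, `D` further known facts.

* Voevodsky's conjecture and Murre's conjectures (A), (B), (C), (D) for all Chow motives over `K`
  hold if and only if they hold over `k`.
* If rational and numerical equivalence agree over `k` (expected for finite `k`), they hold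
  over `K`.

Proof. A cycle over `K` comes from a cycle over a `k`-variety `U`, which is a morphism to `𝟙` from
the total space `low Q`, a mixed motive over `k` with weight complex `P₀ → P₁ → ⋯`, and factors
through `P₀`. As the realisation of `low Q` is in degrees `≤ 0`, the part of `P₀` in positive
degrees is a direct summand of `P₁`, so does not contribute; the part in degrees `≤ 0` is treated
by Murre (B), (D) over `k` and Jannsen's semisimplicity theorem.
-/

set_option autoImplicit false

open CategoryTheory MonoidalCategory

namespace Pool.Agent.Results.MP_38de51_ag.ReductionToPrimeField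

open Pool.Agent.U435.SP

universe v u v' u' w

theorem result {E : Type w} [Field E] [CharZero E] {T : Coefficients.{v', u', w} E}
    {M : BaseMotives.{v, u} T} (N : ExtensionMotives M) (G : Degrees N) (D : KunnethData N G) :
    ((Voevodsky N.Chow ∧ MurreA G.h N.F N.Chow ∧ MurreB G.h N.F N.Chow ∧
        MurreC G.h N.F N.Chow ∧ MurreD G.h N.F N.Chow) ↔
      (Voevodsky M.Chow ∧ MurreA G.h M.F M.Chow ∧ MurreB G.h M.F M.Chow ∧
        MurreC G.h M.F M.Chow ∧ MurreD G.h M.F M.Chow)) ∧
    (RatIsNum M.Chow →
      (Voevodsky N.Chow ∧ MurreA G.h N.F N.Chow ∧ MurreB G.h N.F N.Chow ∧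
        MurreC G.h N.F N.Chow ∧ MurreD G.h N.F N.Chow)) :=
  ⟨murre_full D, murre_of_rat D⟩

end Pool.Agent.Results.MP_38de51_ag.ReductionToPrimeField
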