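import Pool.Agent.X308.S.CK

/-!
# Murre's conjectures (A), (B), (D) for the motives which are dominated by surfaces

`𝒱` is a class of smooth projective geometrically irreducible varieties over the field `k` closed
under products (for example all of them), `C` the Chow groups with rational coefficients (in the
form of their formal properties, `IsChowProj`), `H` a Weil cohomology theory (`IsWeilProj`), and
`SurfaceProperties H` records two known facts: homologically trivial divisor classes on a product
`X × Y` are sums of pull-backs from the factors, and every surface has the Chow-Kunneth
decomposition constructed by Murre.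

Let `M = (X, p, n)` be a Chow motive, `X` of any dimension, such that `p` is a sum of
correspondences which factor through surfaces (`p ∈ throughSurfaces C X`): `M` is a direct summand of
a finite sum of twists of motives of surfaces.

**Theorem.** `M` has a Chow-Kunneth decomposition `M = ⊕ M_i` (A) with `CH_l(M_i) = 0` for
`i < 2 l` (B) and `CH_l(M_(2 l))_hom = 0` for all `l` (D).

The difficulty is that a summand of a sum of motives with Chow-Kunneth decompositions need not have
one: the idempotent `p` does not respect the decompositions, and homologically trivial
endomorphisms of the motives of surfaces are not known to be nilpotent. The proof cuts `p` with the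
help of the two-sided ideals of the endomorphisms of a given weight.
-/

set_option autoImplicit false

open CategoryTheory AlgebraicGeometry

universe u v w

namespace Pool.Agent.Results.MP_38de51_ag.SurfaceMotives

open Pool.Agent.H914 Pool.Agent.H914.VarClass Pool.Agent.H914.VarClass.Obj Pool.Agent.W492.BB
  Pool.Agent.W550.Corr Pool.Agent.TH133 Pool.Agent.X308.S

/-- **Murre's conjectures (A), (B), (D) for motives dominated by surfaces.** The motive
`M = (X, p, n)`, `p` an idempotent which is a sum of correspondences through surfaces, has a
Chow-Kunneth decomposition `(X, π i, n)`, `i ∈ ℤ`, with the properties (B) and (D). -/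
theorem result {k : Type u} [Field k] {𝒱 : VarClass k} {C : TheoryData.{u, v, 0} 𝒱 ℚ} {K : Type w}
    [Field K] [IsChowProj C] {H : WeilTheoryData.{u, v, w} C K} [IsWeilProj H]
    (hS : SurfaceProperties H) (X : 𝒱.Obj) (p : C.A (X.prod X)) (hpp : C.comp p p = p)
    (hp : p ∈ throughSurfaces C X) (n : ℤ) :
    ∃ π : ℤ → C.A (X.prod X), IsMotiveCK H p n π ∧ MotiveB C n π ∧ MotiveD H n π :=
  murre_motive hS hpp hp n

end Pool.Agent.Results.MP_38de51_ag.SurfaceMotives
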